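import Pool.Agent.Y278.MK.Stm

/-!
# Project MK, the statement CRS: the cross identity
-/

set_option autoImplicit false

namespace Pool.Agent.Y405.MK

open MeasureTheory Set Real Filter Topology
open scoped FourierTransform RealInnerProductSpace
open Pool.Agent.Y278.MK

/-- self-adjointness of the Fourier transform on the plane -/
theorem selfadj (f g : ℂ → ℂ) (hf : Integrable f) (hg : Integrable g) :
    ∫ x, 𝓕 f x * g x = ∫ x, f x * 𝓕 g x := by
  have h := VectorFourier.integral_fourierIntegral_smul_eq_flip (μ := (volume : Measure ℂ))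
    (ν := (volume : Measure ℂ)) (L := innerₗ ℂ) (e := 𝐞) (f := f) (g := g)
    Real.continuous_fourierChar (by
      exact continuous_inner) hf hg
  rw [flip_innerₗ] at h
  exact h

/-- the basic computation -/
theorem key (r0 R lam C : ℝ) (Ω Ω' : Set ℂ) (W : ℂ → ℂ) (hG : Good r0 R Ω)
    (hG' : Good r0 R Ω') (hW : Rep Ω lam C W) :
    ∫ x in Ω', W x = ∫ ξ, 𝓕 W (-ξ) * 𝓕 (Ω'.indicator fun _ => (1 : ℂ)) ξ := by
  have hsup : HasCompactSupport W := by
    refine HasCompactSupport.of_support_subset_isCompact (isCompact_closedBall (0 : ℂ) R) ?_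
    intro x hx
    by_contra hxb
    apply hx
    apply hW.off
    intro hxΩ
    exact hxb (Metric.ball_subset_closedBall (hG.out hxΩ))
  have hWi : Integrable W := hW.cont.integrable_of_hasCompactSupport hsup
  have h1 : Integrable (Ω'.indicator fun _ => (1 : ℂ)) := by
    rw [integrable_indicator_iff hG'.op.measurableSet]
    refine integrableOn_const ?_ (by simp)
    exact ((measure_mono hG'.out).trans_lt measure_ball_lt_top).ne
  have h2 : 𝓕⁻ (𝓕 W) = W := hW.cont.fourierInv_fourier_eq hWi hW.fint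
  have h3 : W = 𝓕 (fun x => 𝓕 W (-x)) := by
    rw [← Real.fourierInv_eq_fourier_comp_neg, h2]
  have h4 : ∫ x in Ω', W x = ∫ x, W x * Ω'.indicator (fun _ => (1 : ℂ)) x := by
    rw [← integral_indicator hG'.op.measurableSet]
    refine integral_congr_ae (Eventually.of_forall fun x => ?_)
    by_cases hx : x ∈ Ω'
    · simp [hx]
    · simp [hx]
  have h5 : Integrable (fun x => 𝓕 W (-x)) := hW.fint.comp_neg
  rw [h4]
  conv_lhs => rw [h3]
  exact selfadj _ _ h5 h1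

theorem crs_thm : S_CRS := by
  intro r0 R lam C Ω Ω' W W' hlam hG hG' hW hW'
  rw [key r0 R lam C Ω Ω' W hG hG' hW, key r0 R lam C Ω' Ω W' hG' hG hW']
  rw [← integral_neg_eq_self (fun ξ => 𝓕 W' (-ξ) * 𝓕 (Ω.indicator fun _ => (1 : ℂ)) ξ)]
  refine integral_congr_ae (Eventually.of_forall fun ξ => ?_)
  have e1 := hW.rel (-ξ)
  have e2 := hW'.rel ξ
  rw [norm_neg] at e1
  have hl : (lam : ℂ) ≠ 0 := by exact_mod_cast hlam.ne'
  apply mul_left_cancel₀ hl
  simp only [neg_neg]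
  calc (lam : ℂ) * (𝓕 W (-ξ) * 𝓕 (Ω'.indicator fun _ => (1 : ℂ)) ξ)
      = 𝓕 W (-ξ) * ((lam : ℂ) * 𝓕 (Ω'.indicator fun _ => (1 : ℂ)) ξ) := by ring
    _ = 𝓕 W (-ξ) * (((4 * π ^ 2 * ‖ξ‖ ^ 2 - lam : ℝ) : ℂ) * 𝓕 W' ξ) := by rw [e2]
    _ = (((4 * π ^ 2 * ‖ξ‖ ^ 2 - lam : ℝ) : ℂ) * 𝓕 W (-ξ)) * 𝓕 W' ξ := by ring
    _ = ((lam : ℂ) * 𝓕 (Ω.indicator fun _ => (1 : ℂ)) (-ξ)) * 𝓕 W' ξ := by rw [e1]
    _ = (lam : ℂ) * (𝓕 W' ξ * 𝓕 (Ω.indicator fun _ => (1 : ℂ)) (-ξ)) := by ring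

end Pool.Agent.Y405.MK
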